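import Pool.Agent.Q90.WR.Bcl

/-!
# Two sequences with the recursion of the wreath products
-/

set_option autoImplicit false
set_option linter.unusedSectionVars false

namespace Pool.Agent.J4.H3.AW

theorem lev_step {x y x' y' : ℤ} (hx : 2 * x' = x ^ 2 + 3 * x) (hy : 2 * y' = y ^ 2 + 3 * y)
    {a : ℕ} (h : (2 : ℤ) ^ (a + 1) ∣ x - y) : (2 : ℤ) ^ a ∣ x' - y' := by
  obtain ⟨c, hc⟩ := h
  have h1 : 2 * (x' - y') = 2 * (2 ^ a * (c * (x + y + 3))) := by
    rw [pow_succ] at hc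
    linear_combination hx - hy + (x + y + 3) * hc
  exact ⟨_, mul_left_cancel₀ two_ne_zero h1⟩

/-- congruences modulo `2^a` are congruences modulo two at the first `a` levels -/
theorem lev_iff (a : ℕ) : ∀ (x y : ℕ → ℤ), (∀ j, 2 * x (j + 1) = x j ^ 2 + 3 * x j) →
    (∀ j, 2 * y (j + 1) = y j ^ 2 + 3 * y j) →
    ((2 : ℤ) ^ a ∣ x 0 - y 0 ↔ ∀ j < a, (2 : ℤ) ∣ x j - y j) := by
  induction a with
  | zero => intro x y _ _; simp
  | succ a ih =>
    intro x y hx hy
    have i1 := ih x y hx hy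
    have i2 := ih (fun j => x (j + 1)) (fun j => y (j + 1)) (fun j => hx (j + 1))
      (fun j => hy (j + 1))
    simp only [zero_add] at i2
    constructor
    · intro h j hj
      cases j with
      | zero => exact (dvd_pow_self 2 (Nat.succ_ne_zero a)).trans h
      | succ j => exact i2.mp (lev_step (hx 0) (hy 0) h) j (by omega)
    · intro h
      cases a with
      | zero => simpa using h 0 (by omega)
      | succ a =>
        exact Pool.Agent.Q90.WR.step (hx 0) (hy 0) (i1.mpr fun j hj => h j (by omega))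
          (i2.mpr fun j hj => h (j + 1) (by omega))

/-- equality of the first terms is parity at all levels -/
theorem lev_eq (x y : ℕ → ℤ) (hx : ∀ j, 2 * x (j + 1) = x j ^ 2 + 3 * x j)
    (hy : ∀ j, 2 * y (j + 1) = y j ^ 2 + 3 * y j) :
    x 0 = y 0 ↔ ∀ j, (2 : ℤ) ∣ x j - y j := by
  constructor
  · intro h j
    exact (lev_iff (j + 1) x y hx hy).mp (by rw [h, sub_self]; exact dvd_zero _) j (by omega)
  · intro h
    exact Pool.Agent.Q90.WR.eq_of_all fun a => (lev_iff (a + 1) x y hx hy).mpr fun j _ => h j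

/-! ### the graded version -/

/-- the recursion for Dade's numbers -/
def Rec (x x' : ℕ → ℤ) : Prop := ∀ d, 2 * x' d =
  ∑ t ∈ Finset.HasAntidiagonal.antidiagonal d, x t.1 * x t.2 + 3 * (if 2 ∣ d then x (d / 2) else 0)

theorem glev_down {x y x' y' : ℕ → ℤ} (hx : Rec x x') (hy : Rec y y') {a : ℕ}
    (h : ∀ d, (2 : ℤ) ^ (a + 1) ∣ x d - y d) (d : ℕ) : (2 : ℤ) ^ a ∣ x' d - y' d := by
  have h1 : (2 : ℤ) ^ (a + 1) ∣ 2 * (x' d - y' d) := by
    rw [mul_sub, hx d, hy d]
    have h2 : (∑ t ∈ Finset.HasAntidiagonal.antidiagonal d, x t.1 * x t.2 +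
        3 * (if 2 ∣ d then x (d / 2) else 0)) -
        (∑ t ∈ Finset.HasAntidiagonal.antidiagonal d, y t.1 * y t.2 +
        3 * (if 2 ∣ d then y (d / 2) else 0)) =
        ∑ t ∈ Finset.HasAntidiagonal.antidiagonal d, (x t.1 * x t.2 - y t.1 * y t.2) +
        3 * (if 2 ∣ d then x (d / 2) - y (d / 2) else 0) := by
      rw [Finset.sum_sub_distrib]
      split_ifs <;> ring
    rw [h2]
    refine dvd_add (Finset.dvd_sum fun t _ => ?_) (Dvd.dvd.mul_left ?_ 3)
    · have e : x t.1 * x t.2 - y t.1 * y t.2 = (x t.1 - y t.1) * x t.2 + y t.1 * (x t.2 - y t.2) := by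
        ring
      rw [e]
      exact dvd_add ((h _).mul_right _) ((h _).mul_left _)
    · split_ifs
      · exact h _
      · exact dvd_zero _
  obtain ⟨c, hc⟩ := h1
  refine ⟨c, mul_left_cancel₀ (two_ne_zero (α := ℤ)) ?_⟩
  rw [hc, pow_succ]
  ring

theorem glev_up {x y x' y' : ℕ → ℤ} (hx : Rec x x') (hy : Rec y y') {a : ℕ}
    (h : ∀ d, (2 : ℤ) ^ (a + 1) ∣ x d - y d) (h' : ∀ d, (2 : ℤ) ^ (a + 1) ∣ x' d - y' d) (d : ℕ) :
    (2 : ℤ) ^ (a + 2) ∣ x d - y d := by
  have h1 := hx (2 * d)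
  have h2 := hy (2 * d)
  rw [if_pos (dvd_mul_right 2 d), Nat.mul_div_cancel_left d two_pos] at h1 h2
  have h3 : ∑ t ∈ Finset.HasAntidiagonal.antidiagonal (2 * d), x t.1 * x t.2 -
      ∑ t ∈ Finset.HasAntidiagonal.antidiagonal (2 * d), y t.1 * y t.2 =
      ∑ t ∈ Finset.HasAntidiagonal.antidiagonal (2 * d),
        (x t.1 - y t.1) * ((x t.2 - y t.2) + 2 * y t.2) := by
    have e1 : ∑ t ∈ Finset.HasAntidiagonal.antidiagonal (2 * d), y t.1 * (x t.2 - y t.2) =
        ∑ t ∈ Finset.HasAntidiagonal.antidiagonal (2 * d), (x t.1 - y t.1) * y t.2 := by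
      have := Finset.Nat.sum_antidiagonal_swap (n := 2 * d)
        (f := fun t : ℕ × ℕ => y t.1 * (x t.2 - y t.2))
      rw [← this]
      exact Finset.sum_congr rfl fun t _ => by simp only [Prod.fst_swap, Prod.snd_swap]; ring
    have e2 : ∀ t : ℕ × ℕ, x t.1 * x t.2 - y t.1 * y t.2 =
        (x t.1 - y t.1) * (x t.2 - y t.2) + (x t.1 - y t.1) * y t.2 + y t.1 * (x t.2 - y t.2) := by
      intro t; ring
    rw [← Finset.sum_sub_distrib]
    simp_rw [e2]
    rw [Finset.sum_add_distrib, e1, ← Finset.sum_add_distrib]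
    exact Finset.sum_congr rfl fun t _ => by ring
  have h4 : (2 : ℤ) ^ (a + 2) ∣ ∑ t ∈ Finset.HasAntidiagonal.antidiagonal (2 * d),
        (x t.1 - y t.1) * ((x t.2 - y t.2) + 2 * y t.2) := by
    refine Finset.dvd_sum fun t _ => ?_
    rw [pow_succ]
    refine mul_dvd_mul (h _) (dvd_add ?_ (dvd_mul_right 2 _))
    exact (dvd_pow_self 2 (Nat.succ_ne_zero a)).trans (h _)
  have h5 : (2 : ℤ) ^ (a + 2) ∣ 2 * (x' (2 * d) - y' (2 * d)) := by
    rw [pow_succ, mul_comm]
    exact mul_dvd_mul_left 2 (h' _)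
  have h6 : (2 : ℤ) ^ (a + 2) ∣ 3 * (x d - y d) := by
    have e : 3 * (x d - y d) = 2 * (x' (2 * d) - y' (2 * d)) -
        ∑ t ∈ Finset.HasAntidiagonal.antidiagonal (2 * d),
        (x t.1 - y t.1) * ((x t.2 - y t.2) + 2 * y t.2) := by
      rw [← h3]
      linear_combination h2 - h1
    rw [e]
    exact dvd_sub h5 h4
  have h7 : IsCoprime ((2 : ℤ) ^ (a + 2)) 3 := IsCoprime.pow_left ⟨-1, 1, by norm_num⟩
  exact h7.dvd_of_dvd_mul_left h6

theorem glev_iff (a : ℕ) : ∀ (x y : ℕ → ℕ → ℤ), (∀ j, Rec (x j) (x (j + 1))) →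
    (∀ j, Rec (y j) (y (j + 1))) →
    ((∀ d, (2 : ℤ) ^ a ∣ x 0 d - y 0 d) ↔ ∀ j < a, ∀ d, (2 : ℤ) ∣ x j d - y j d) := by
  induction a with
  | zero => intro x y _ _; simp
  | succ a ih =>
    intro x y hx hy
    have i1 := ih x y hx hy
    have i2 := ih (fun j => x (j + 1)) (fun j => y (j + 1)) (fun j => hx (j + 1))
      (fun j => hy (j + 1))
    simp only [zero_add] at i2
    constructor
    · intro h j hj d
      cases j with
      | zero => exact (dvd_pow_self 2 (Nat.succ_ne_zero a)).trans (h d)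
      | succ j => exact i2.mp (glev_down (hx 0) (hy 0) h) j (by omega) d
    · intro h
      cases a with
      | zero => simpa using h 0 (by omega)
      | succ a =>
        exact glev_up (hx 0) (hy 0) (i1.mpr fun j hj => h j (by omega))
          (i2.mpr fun j hj => h (j + 1) (by omega))

theorem glev_eq (x y : ℕ → ℕ → ℤ) (hx : ∀ j, Rec (x j) (x (j + 1)))
    (hy : ∀ j, Rec (y j) (y (j + 1))) :
    (∀ d, x 0 d = y 0 d) ↔ ∀ j d, (2 : ℤ) ∣ x j d - y j d := by
  constructor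
  · intro h j d
    exact (glev_iff (j + 1) x y hx hy).mp (fun d => by rw [h, sub_self]; exact dvd_zero _) j
      (by omega) d
  · intro h d
    exact Pool.Agent.Q90.WR.eq_of_all fun a => (glev_iff (a + 1) x y hx hy).mpr (fun j _ => h j) d

/-! ### towers of blocks -/

section tower

open Pool.Agent.Q90.WR Pool.Agent.Q259.BW

variable {p : ℕ} [hp : Fact p.Prime] {O : ValuationSubring ℂ}

theorem alt_rec (hp2 : p ≠ 2) (hpO : (p : ℂ) ∈ O.nonunits) : ∀ (j : ℕ) (G : Type) [Group G]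
    [Finite G] (B : Set (G → ℂ)), GoodB O B →
    2 * blkAlt p O (WrSN (j + 1) B) = blkAlt p O (WrSN j B) ^ 2 + 3 * blkAlt p O (WrSN j B) := by
  intro j
  induction j with
  | zero =>
    intro G _ _ B hB
    have := Fintype.ofFinite G
    exact blkAlt_wr hp2 hpO hB.block hB.pos
  | succ j ih =>
    intro G _ _ B hB
    have := Fintype.ofFinite G
    exact ih (Wr G) (WrS B) (hB.wr hp2 hpO)

theorem def_rec (hp2 : p ≠ 2) (hpO : (p : ℂ) ∈ O.nonunits) : ∀ (j : ℕ) (G : Type) [Group G]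
    [Finite G] (B : Set (G → ℂ)), GoodB O B →
    Rec (fun d => blkDef p O d (WrSN j B)) (fun d => blkDef p O d (WrSN (j + 1) B)) := by
  intro j
  induction j with
  | zero =>
    intro G _ _ B hB
    have := Fintype.ofFinite G
    exact blkDef_wr hp2 hpO hB.block hB.pos
  | succ j ih =>
    intro G _ _ B hB
    have := Fintype.ofFinite G
    exact ih (Wr G) (WrS B) (hB.wr hp2 hpO)

/-- signs do not matter modulo two -/
theorem altsum_modEq {G : Type} [Group G] [Finite G] (f : Subgroup G → ℕ) :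
    Pool.Agent.Y63.KR.alternatingSum p G (fun H => (f H : ℤ)) ≡
      ((∑ᶠ c : Quotient (Pool.Agent.Y63.KR.chainSetoid p G),
        f (Pool.Agent.Y63.KR.chainStabilizer c.out.1) : ℕ) : ℤ) [ZMOD 2] := by
  have : Fintype (Quotient (Pool.Agent.Y63.KR.chainSetoid p G)) := Fintype.ofFinite _
  unfold Pool.Agent.Y63.KR.alternatingSum
  rw [finsum_eq_sum_of_fintype, finsum_eq_sum_of_fintype, Nat.cast_sum]
  rw [Int.modEq_iff_dvd, ← Finset.sum_sub_distrib]
  refine Finset.dvd_sum fun c _ => ?_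
  rcases neg_one_pow_eq_or ℤ (c.out.1.ncard) with h | h
  · rw [h, one_mul, sub_self]; exact dvd_zero _
  · rw [h]
    exact ⟨(f (Pool.Agent.Y63.KR.chainStabilizer c.out.1) : ℤ), by ring⟩

theorem par_iff {G G' : Type} [Group G] [Finite G] [Group G'] [Finite G'] (f : Subgroup G → ℕ)
    (f' : Subgroup G' → ℕ) :
    (∑ᶠ c : Quotient (Pool.Agent.Y63.KR.chainSetoid p G),
        f (Pool.Agent.Y63.KR.chainStabilizer c.out.1)) ≡
      (∑ᶠ c : Quotient (Pool.Agent.Y63.KR.chainSetoid p G'),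
        f' (Pool.Agent.Y63.KR.chainStabilizer c.out.1)) [MOD 2] ↔
    (2 : ℤ) ∣ Pool.Agent.Y63.KR.alternatingSum p G (fun H => (f H : ℤ)) -
      Pool.Agent.Y63.KR.alternatingSum p G' (fun H => (f' H : ℤ)) := by
  have h1 := altsum_modEq (p := p) f
  have h2 := altsum_modEq (p := p) f'
  rw [← Int.natCast_modEq_iff]
  constructor
  · intro h
    exact (h2.trans (h.symm.trans h1.symm)).dvd
  · intro h
    exact h1.symm.trans ((Int.modEq_iff_dvd.mpr h).symm.trans h2)

end tower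

end Pool.Agent.J4.H3.AW
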